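import Pool.Agent.H27.UF.Main

/-!
# MP_7e5527_ag: Q1 in dimension `m` reduces to simple Shimura varieties and to those of dimension `≤ 2 m`

**Framework.** `ShimuraWorld` and `IsGeometry` (`Pool.Agent.K4H23.UI.Defs`): the connected Shimura
varieties `X = Γ \ X⁺`, their points with the Zariski topology, products, morphisms, the dimension, the
special and the weakly special subvarieties, with formal properties which are standard facts.
`Factors` and `IsFactored` (`Pool.Agent.H27.UF.Defs`): the `ℚ`-simple factors of the adjoint datum of
`X`, for a set `J` of them the Shimura variety `X_J` of the product of the factors in `J`, the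
projections, the additivity of the dimension, and two standard facts: a weakly special subvariety is, up
to finite maps, a Shimura variety, and if `x ∈ Σ_X(p)` then the adjoint Mumford-Tate datum of `x` is a
product of simple factors of that of `p`.

`Orb p X` is the set `Σ_X(p)` of the problem, for the Hodge generic point `p` of `P = Γ_M \ X_M⁺`, and
`Q1 p V` the conclusion of the problem for `V ⊆ X`.

A subvariety `V` of `X_J` is *thick* if it is not `X_J`, is contained in no proper weakly special
subvariety, and maps dominantly to `X_{J \ {i}}` for every `i ∈ J`.

**Theorem.** Let `C` be a class of Hodge generic points which contains with `p ∈ P` all its projections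
`p_L ∈ P_L` (for instance all points, or all algebraic points), and let `m` be a natural number. Then Q1
holds for all points `p` in `C` and all subvarieties `V` of dimension at most `m` of all Shimura varieties
if and only if for every `p ∈ P` in `C` and every thick subvariety `V` of an `X_J` with `dim V ≤ m`, with

* `(|J| - 1) dim X_J ≤ |J| dim V`, so `|J| = 1` or `dim X_J ≤ 2 dim V`, and `|J| ≤ dim V + 1`;
* `dim P ≤ dim X_J`,

the set `Σ(p) ∩ V` is not dense in `V`.

So in dimension `m` only simple Shimura varieties `X` and Shimura varieties `X` of dimension at most `2 m` are
left, and `dim P ≤ dim X`. For curves `V` there are only two cases: `X` is simple, or `X` is a product of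
two Shimura curves and `V` maps onto both of them. In general, for `|J| = m + 1` all factors are Shimura
curves and `V` is a hypersurface which maps dominantly to all the products of `m` of them.

With the reduction to algebraic points (`MP_7e5527_ag.ReductionToAlgebraicPoints` of the library, which
uses the theorem of Daw and Ren) one can moreover assume that `p` is algebraic and `V` defined over `ℚ̄`
(`q1_all_iff` in `Pool/Agent/H27/UF/Cor.lean`).

Proof. Let `Σ(p) ∩ V` be dense in `V` and `V` not weakly special. Replace `X` by the Shimura variety which
belongs to the smallest weakly special subvariety containing `V` (by finite correspondences, which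
respect the sets `Σ(p)`), then by `X_J` for a minimal set `J` of factors such that `V` does not map
dominantly to `X_J`. Adding up `dim X_{J \ {i}} ≤ dim V` over `i ∈ J` one gets the bound for `dim X_J`.
Finally the same set `L` of factors of `P` serves a dense set of points.
-/

set_option autoImplicit false

namespace Pool.Agent.Results.MP_7e5527_ag.ThickSubvarieties

open Set Pool.Agent.K4H23.UI Pool.Agent.K4H23.UI.ShimuraWorld Pool.Agent.H27.UF

theorem result (G : ShimuraWorld) (hG : IsGeometry G) (F : Factors G) (hF : IsFactored G F)
    (C : ∀ P : G.Obj, G.Pt P → Prop)
    (hC : ∀ (P : G.Obj) (p : G.Pt P) (L : Finset (F.Fac P)), C P p → C _ (F.proj P L p)) (m : ℕ) :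
    (∀ (P : G.Obj) (p : G.Pt P), C P p → HodgeGeneric p → ∀ (X : G.Obj) (V : Set (G.Pt X)),
      IsSub V → G.dim V ≤ m → Q1 p V) ↔
    ∀ (P : G.Obj) (p : G.Pt P), C P p → HodgeGeneric p → ∀ (X : G.Obj) (J : Finset (F.Fac X))
      (V : Set (G.Pt (F.Quo X J))), Thick F X J V → G.dim V ≤ m →
        (J.card - 1) * G.dim (univ : Set (G.Pt (F.Quo X J))) ≤ J.card * G.dim V →
        G.dim (univ : Set (G.Pt P)) ≤ G.dim (univ : Set (G.Pt (F.Quo X J))) →
          ¬ V ⊆ closure (Orb p (F.Quo X J) ∩ V) :=
  q1_iff hG hF C hC m

end Pool.Agent.Results.MP_7e5527_ag.ThickSubvarieties
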